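import Pool.Agent.H53.GR.Targets

/-!
# Assembly
-/

set_option autoImplicit false

namespace Pool.Agent.H53.GR

open Pool.Agent.H68.BP Pool.Agent.H58.SF Pool.Agent.H53.NR Pool.Agent.H58.GR
open Pool.Agent.H53.GC (T_OLF T_OLS)

/-- The theorem for universal structures on linear orders. -/
theorem asm_order (hPOW : T_POW) (hNR3 : T_NR3) (hCAN : T_CAN) (hMIX : T_MIX) (hGOO : T_GOO)
    (hNOS : T_NOSEL) (hOLF : T_OLF) (hLIM : T_LIM) (hOLS : T_OLS) (hRED : T_RED)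
    {σ τ : Sig} {V : Type} [LinearOrder V] {𝔸 : Str σ V} {𝔹 : Str τ V} {M : ℕ}
    (hV : Countable V) (hs : Setp 𝔸 𝔹 M) (hol : Oligo 𝔸) :
    PPConstructsK3 𝔸 ∨ (¬ PPConstructsK3 (tmpl 𝔸 𝔹 M) ∧
      N793a5b8e.ManyOneReducible (CSP 𝔸) (CSP (tmpl 𝔸 𝔹 M))) := by
  by_cases hK : PPConstructsK3 𝔸
  · exact Or.inl hK
  · refine Or.inr ⟨?_, hRED σ τ V 𝔸 𝔹 M hs⟩
    obtain ⟨H, hH⟩ := hPOW σ τ V 𝔸 𝔹 M hV hs.ne hs.pos hs.ar hol hK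
    obtain ⟨H', hH', ht⟩ := hCAN σ τ V 𝔸 𝔹 M hs.ar
      (hNR3 τ V 𝔹 M (fun l => (hs.ar l).1) hs.univ) hs.split H hH
    refine hOLS _ _ _ (hLIM σ τ V 𝔸 𝔹 M hs.pos hs.ne fun k => ?_)
    have h1 : Finite (Str τ (Fin k)) := by
      unfold Str
      infer_instance
    have h2 : Nonempty (Str τ (Fin k)) := ⟨fun _ _ => False⟩
    exact hOLF _ _ _ _ (hNOS _ _ _ (pS 𝔸 𝔹 M k) (hGOO σ τ V 𝔸 𝔹 M k)
      (hMIX σ τ V 𝔸 𝔹 M H' hs hH' ht k))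

theorem fb_mono {τ : Sig} {B : Type} {𝔹 : Str τ B} {M M' : ℕ} (h : FreelyBounded 𝔹 M)
    (hM : M ≤ M') : FreelyBounded 𝔹 M' :=
  fun n 𝕏 hX => h n 𝕏 fun m s hm => hX m s (hm.trans hM)

/-- The theorem for structures with free amalgamation. -/
theorem asm_free (hFB1 : T_FB1) (hFB2 : T_FB2) (hFB5 : T_FB5)
    (hmain : ∀ (σ τ : Sig) (V : Type) [LinearOrder V] (𝔸 : Str σ V) (𝔹 : Str τ V) (M : ℕ),
      Countable V → Setp 𝔸 𝔹 M → Oligo 𝔸 →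
      PPConstructsK3 𝔸 ∨ (¬ PPConstructsK3 (tmpl 𝔸 𝔹 M) ∧
        N793a5b8e.ManyOneReducible (CSP 𝔸) (CSP (tmpl 𝔸 𝔹 M))))
    (τ σ : Sig) (B : Type) [Countable B] [Nonempty B] (𝔹 : Str τ B) (𝔸 : Str σ B)
    (har : ∀ l, 1 ≤ τ.ar l) (hH : Homogeneous 𝔹) (hF : FinitelyBounded 𝔹)
    (hA : FreeAmalgamation 𝔹) (hS : ClosedUnderSplitting 𝔸 𝔹) :
    PPConstructsK3 𝔸 ∨ ∃ (σ' : Sig) (Y : Type) (_ : Finite Y) (𝕋 : Str σ' Y),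
      ¬ PPConstructsK3 𝕋 ∧ N793a5b8e.ManyOneReducible (CSP 𝔸) (CSP 𝕋) := by
  obtain ⟨M₀, hM₀, hFB₀⟩ := hFB1 τ B 𝔹 hF hA
  let M := max M₀ τ.width
  have hFB : FreelyBounded 𝔹 M := fb_mono hFB₀ (le_max_left _ _)
  have hM : 1 ≤ M := le_trans (by omega) (le_max_left M₀ τ.width)
  have hw : ∀ l, τ.ar l ≤ M := fun l =>
    (Finset.le_sup (f := τ.ar) (Finset.mem_univ l)).trans (le_max_right _ _)
  obtain ⟨en, hen⟩ := exists_injective_nat B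
  let _ : LinearOrder B := LinearOrder.lift' en hen
  have hU : Univ 𝔹 M := by
    intro n 𝕏 hX
    obtain ⟨f, hf, hm⟩ := hFB2 τ B 𝔹 M en hen hH hFB n 𝕏 (hFB n 𝕏 hX)
    exact ⟨f, fun i j hij => hm hij, hf⟩
  have hY : Finite (Dm τ M) := by
    unfold Dm Str
    infer_instance
  rcases hmain σ τ B 𝔸 𝔹 M inferInstance ⟨inferInstance, hM, fun l => ⟨har l, hw l⟩, hU, hS⟩
    (hFB5 τ σ B 𝔹 𝔸 inferInstance hH hS) with h | h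
  · exact Or.inl h
  · exact Or.inr ⟨_, Dm τ M, hY, _, h.1, h.2⟩

end Pool.Agent.H53.GR
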