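import Pool.Agent.H53.GR.Targets

/-!
# The system of patterns
-/

set_option autoImplicit false
set_option linter.unusedVariables false

namespace Pool.Agent.H53.GR

open Pool.Agent.H68.BP Pool.Agent.H58.SF Pool.Agent.H53.GC Pool.Agent.H53.NR Pool.Agent.H58.GR
open Classical

theorem res_res {τ : Sig} {W : Type} {a b : Finset W} (h : a ⊆ b) (𝕏 : Str τ W) :
    res a (res b 𝕏) = res a 𝕏 := by
  funext l z
  apply propext
  constructor
  · rintro ⟨h1, _, h2⟩
    exact ⟨h1, h2⟩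
  · rintro ⟨h1, h2⟩
    exact ⟨h1, fun i => h (h1 i), h2⟩

theorem sc_tp {σ : Sig} {M k : ℕ} (e e' : So M k) : ScK (tpK σ e) e' ↔ e'.1 ⊆ e.1 := by
  have h1 := (exists_enum e).choose_spec
  constructor
  · intro h i hi
    exact (h1 i).2 (h i hi)
  · intro h i hi
    exact (h1 i).1 (h hi)

theorem pf_GOO : T_GOO := by
  intro σ τ V 𝔸 𝔹 M k
  refine ⟨fun e => Finset.Subset.refl _, ?_, ?_, ?_, fun e e' => sc_tp e e', ?_⟩
  · rintro l p q h ⟨y, h1, h2⟩
    exact ⟨y, h1, fun e he => (h e he).symm.trans (h2 e he)⟩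
  · intro l a b hb hab i hi
    exact hb i (hab hi)
  · rintro l p ⟨y, h1, h2⟩ a b hb hab
    have ha : ScK l a := fun i hi => hb i (hab hi)
    change p a = res a.1 (p b)
    rw [h2 a ha, h2 b hb, res_res hab]
  · rintro l p e ⟨y, h1, h2⟩ he
    refine ⟨y, trivial, fun e' he' => h2 e' fun i hi => he i ((sc_tp e e').1 he' hi)⟩

end Pool.Agent.H53.GR
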