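import Pool.Agent.H53.GR.Targets

/-!
# Validity of the families given by shapes
-/

set_option autoImplicit false
set_option linter.unusedVariables false

namespace Pool.Agent.H53.GR

open Pool.Agent.H68.BP Pool.Agent.H58.SF Pool.Agent.H53.GC Pool.Agent.H53.NR Pool.Agent.H58.GR
open Classical

section val

variable {τ σ : Sig} {V : Type} {𝔸 : Str σ V} {𝔹 : Str τ V} {M m k : ℕ}

/-- the vertices of the glued structure -/
abbrev WW (t : Fin m → Fin k) (κ : Fin k → Fin 6 → Fin 6) : Type :=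
  {q : Fin k ×ₗ Fin 6 // (∃ a, t a = (ofLex q).1) ∧ ∃ c, κ (ofLex q).1 c = (ofLex q).2}

/-- the vertex `i` of the copy `c` -/
def ww (t : Fin m → Fin k) (κ : Fin k → Fin 6 → Fin 6) (i : Fin k) (hi : ∃ a, t a = i)
    (c : Fin 6) : WW t κ := ⟨toLex (i, κ i c), hi, c, rfl⟩

/-- the glued structure -/
def glue (𝔹 : Str τ V) (t : Fin m → Fin k) (κ : Fin k → Fin 6 → Fin 6) (Y : Fin 6 → Fin k → V) :
    Str τ (WW t κ) :=
  fun l z => ∃ c, (∀ i, κ (ofLex (z i).1).1 c = (ofLex (z i).1).2) ∧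
    spl 𝔹 (Y c) l (fun i => (ofLex (z i).1).1)

variable {t : Fin m → Fin k} {κ : Fin k → Fin 6 → Fin 6} {Y : Fin 6 → Fin k → V}

/-- The copies agree on common vertices. -/
theorem agree_spl {p : Fin 6 → So M k → Str τ (Fin k)} (har : ∀ l, 1 ≤ τ.ar l ∧ τ.ar l ≤ M)
    (hp : ∀ c (e : So M k), (∀ i ∈ e.1, ∃ a, t a = i) → p c e = res e.1 (spl 𝔹 (Y c)))
    (hC : Cs (fun i => ∃ a, t a = i) κ p) (l : Fin τ.m) (z : Fin (τ.ar l) → Fin k)
    (hz : ∀ i, ∃ a, t a = z i) (c d : Fin 6) (h : ∀ i, κ (z i) c = κ (z i) d) :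
    spl 𝔹 (Y c) l z ↔ spl 𝔹 (Y d) l z := by
  have h0 : 0 < τ.ar l := (har l).1
  let e : So M k := ⟨Finset.univ.image z, ⟨z ⟨0, h0⟩, Finset.mem_image_of_mem _ (Finset.mem_univ _)⟩,
    (Finset.card_image_le.trans (by simp)).trans (har l).2⟩
  have he : ∀ i, z i ∈ e.1 := fun i => Finset.mem_image_of_mem _ (Finset.mem_univ _)
  have he' : ∀ i ∈ e.1, ∃ a, t a = i := by
    intro i hi
    obtain ⟨b, _, rfl⟩ := Finset.mem_image.1 hi
    exact hz b
  have h1 := hC.agree e he' c d (by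
    intro i hi
    obtain ⟨b, _, rfl⟩ := Finset.mem_image.1 hi
    exact h b)
  rw [hp c e he', hp d e he'] at h1
  have h2 := congrFun (congrFun h1 l) z
  simp only [res, eq_iff_iff] at h2
  constructor
  · intro h3
    exact (h2.1 ⟨he, h3⟩).2
  · intro h3
    exact (h2.2 ⟨he, h3⟩).2

/-- The glued structure satisfies the hypothesis of universality. -/
theorem glue_ok (h : ∀ (l : Fin τ.m) (z : Fin (τ.ar l) → Fin k), (∀ i, ∃ a, t a = z i) →
      ∀ c d, (∀ i, κ (z i) c = κ (z i) d) → (spl 𝔹 (Y c) l z ↔ spl 𝔹 (Y d) l z))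
    (star : ∀ (m : ℕ) (q : Fin m → Fin k) (s : Fin m → Fin 6), 2 ≤ m → Function.Injective q →
      (∀ a, ∃ b, t b = q a) → (∀ a b, a ≠ b → ∃ c, κ (q a) c = s a ∧ κ (q b) c = s b) →
      ∃ c, ∀ a, κ (q a) c = s a) : OK 𝔹 M (glue 𝔹 t κ Y) := by
  intro n s hn hs hirr
  let q : Fin n → Fin k := fun i => (ofLex (s i).1).1
  let u : Fin n → Fin 6 := fun i => (ofLex (s i).1).2
  have hq : ∀ i, ∃ a, t a = q i := fun i => (s i).2.1
  have pair : ∀ i j, i ≠ j → ∃ c, κ (q i) c = u i ∧ κ (q j) c = u j := by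
    intro i j hij
    obtain ⟨l, z, ⟨c, hc, _⟩, ⟨a, rfl⟩, ⟨b, rfl⟩⟩ := hirr i j hij
    exact ⟨c, hc a, hc b⟩
  have qinj : Function.Injective q := by
    intro i j hij
    by_contra hne
    obtain ⟨c, h1, h2⟩ := pair i j hne
    apply hne
    apply hs
    apply Subtype.ext
    have h3 : u i = u j := by
      rw [← h1, ← h2, hij]
    exact ofLex.injective (Prod.ext hij h3)
  obtain ⟨c, hc⟩ : ∃ c, ∀ i, κ (q i) c = u i := by
    rcases Nat.lt_or_ge n 2 with h2 | h2
    · rcases Nat.eq_zero_or_pos n with h0 | h0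
      · subst h0
        exact ⟨0, fun i => i.elim0⟩
      · obtain ⟨c, hc⟩ := (s ⟨0, h0⟩).2.2
        refine ⟨c, fun i => ?_⟩
        have h3 : i = ⟨0, h0⟩ := by
          apply Fin.ext
          have := i.2
          simp only
          omega
        rw [h3]
        exact hc
    · exact star n q u h2 qinj hq pair
  have hpull : ∀ (l : Fin τ.m) (z : Fin (τ.ar l) → Fin n), pull (glue 𝔹 t κ Y) s l z ↔
      spl 𝔹 (Y c) l (fun i => q (z i)) := by
    intro l z
    constructor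
    · rintro ⟨c', hc', h3⟩
      refine (h l _ (fun i => hq _) c' c fun i => ?_).1 h3
      exact (hc' i).trans (hc (z i)).symm
    · intro h3
      exact ⟨c, fun i => hc (z i), h3⟩
  have yinj : Function.Injective fun i => Y c (q i) := by
    intro i j hij
    by_contra hne
    obtain ⟨l, z, h1, ⟨a, rfl⟩, ⟨b, rfl⟩⟩ := hirr i j hne
    have h2 := ((hpull l z).1 h1).2 a b hij
    exact hne (qinj h2)
  refine ⟨fun i => Y c (q i), yinj, fun l z => ?_⟩
  rw [hpull]
  constructor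
  · exact fun h1 => h1.1
  · intro h1
    exact ⟨h1, fun i j hij => congrArg q (yinj hij)⟩

variable [LinearOrder V]

/-- Realization of the blocks. -/
theorem blocks (hU : T_UNI) (hne : Nonempty V) (huniv : Univ 𝔹 M)
    (h : ∀ (l : Fin τ.m) (z : Fin (τ.ar l) → Fin k), (∀ i, ∃ a, t a = z i) →
      ∀ c d, (∀ i, κ (z i) c = κ (z i) d) → (spl 𝔹 (Y c) l z ↔ spl 𝔹 (Y d) l z))
    (star : ∀ (m : ℕ) (q : Fin m → Fin k) (s : Fin m → Fin 6), 2 ≤ m → Function.Injective q →
      (∀ a, ∃ b, t b = q a) → (∀ a b, a ≠ b → ∃ c, κ (q a) c = s a ∧ κ (q b) c = s b) →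
      ∃ c, ∀ a, κ (q a) c = s a) :
    ∃ v : Fin k → Fin 6 → V,
      (∀ i j, (∃ a, t a = i) → (∃ a, t a = j) → ∀ c d, v i c < v j d ↔
        (i < j ∨ (i = j ∧ κ i c < κ j d))) ∧
      ∀ (l : Fin τ.m) (z : Fin (τ.ar l) → Fin k) (c : Fin (τ.ar l) → Fin 6),
        (∀ i, ∃ a, t a = z i) → (𝔹 l (fun i => v (z i) (c i)) ↔
          ∃ d : Fin 6, (∀ i, κ (z i) d = κ (z i) (c i)) ∧ spl 𝔹 (Y d) l z) := by
  have hfin : Finite (Fin k ×ₗ Fin 6) := inferInstanceAs (Finite (Fin k × Fin 6))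
  obtain ⟨f, hf, hemb⟩ := hU τ V 𝔹 M huniv (WW t κ) (glue 𝔹 t κ Y) (glue_ok h star)
  let v : Fin k → Fin 6 → V := fun i c =>
    if hi : ∃ a, t a = i then f (ww t κ i hi c) else Classical.arbitrary V
  have hv : ∀ i (hi : ∃ a, t a = i) c, v i c = f (ww t κ i hi c) := fun i hi c => dif_pos hi
  refine ⟨v, ?_, ?_⟩
  · intro i j hi hj c d
    rw [hv i hi, hv j hj, hf.lt_iff_lt]
    change toLex (i, κ i c) < toLex (j, κ j d) ↔ _
    rw [Prod.Lex.toLex_lt_toLex]
  · intro l z c hz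
    have h1 := hemb.2 l (fun i => ww t κ (z i) (hz i) (c i))
    have h2 : (fun i => v (z i) (c i)) = fun i => f (ww t κ (z i) (hz i) (c i)) :=
      funext fun i => hv _ _ _
    rw [h2, ← h1]
    exact Iff.rfl

/-- The tuple of values of two systems of blocks has the same type. -/
theorem sh_same {w : Fin 6 → Str τ (Fin k)} {e : Finset (Fin k)} {v v' : Fin k → Fin 6 → V}
    (h : Sh 𝔹 κ e w v) (h' : Sh 𝔹 κ e w v') (l : Fin τ.m) (z : Fin (τ.ar l) → Fin k)
    (hz : ∀ i, z i ∈ e) : SameTp 𝔹 (fun q : Fin (τ.ar l) × Fin 6 => v (z q.1) q.2)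
      (fun q => v' (z q.1) q.2) := by
  refine ⟨fun i j => ?_, ?_⟩
  · rw [h.1 _ (hz _) _ (hz _), h'.1 _ (hz _) _ (hz _)]
  · funext l' z'
    apply propext
    exact (h.2 l' (fun i => z (z' i).1) (fun i => (z' i).2) fun i => hz _).trans
      (h'.2 l' (fun i => z (z' i).1) (fun i => (z' i).2) fun i => hz _).symm

/-- The value of the family. -/
theorem fmK_eq {H : Str τ (Fin 6 → V)} (hT : TInv 𝔹 H) {w : Fin 6 → Str τ (Fin k)} {e : So M k}
    {v : Fin k → Fin 6 → V} (h : Sh 𝔹 κ e.1 w v) : fmK 𝔹 H κ e w = res e.1 (pull H v) := by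
  have h1 : ∃ v, Sh 𝔹 κ e.1 w v := ⟨v, h⟩
  have h2 : fmK 𝔹 H κ e w = res e.1 (pull H h1.choose) := dif_pos h1
  rw [h2]
  funext l z
  apply propext
  constructor
  · rintro ⟨hz, h3⟩
    exact ⟨hz, (hT l _ _ (sh_same h1.choose_spec h l z hz)).1 h3⟩
  · rintro ⟨hz, h3⟩
    exact ⟨hz, (hT l _ _ (sh_same h1.choose_spec h l z hz)).2 h3⟩

theorem pf_VAL (hU : T_UNI) : T_VAL := by
  intro σ τ V _ 𝔸 𝔹 M H hS hH hT k κ lb p hp hC
  obtain ⟨s, t⟩ := lb
  have := hS.ne
  choose Y hY1 hY2 using hp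
  have hp' : ∀ c (e : So M k), (∀ i ∈ e.1, ∃ a, t a = i) → p c e = res e.1 (spl 𝔹 (Y c)) :=
    fun c e he => hY2 c e he
  have hag := fun l z hz c d h => agree_spl (𝔹 := 𝔹) (Y := Y) hS.ar hp' hC l z hz c d h
  obtain ⟨v, hv1, hv2⟩ := blocks (𝔹 := 𝔹) (Y := Y) (κ := κ) (t := t) hU hS.ne hS.univ hag hC.star
  -- blocks of different vertices
  have hvne : ∀ i j, (∃ a, t a = i) → (∃ a, t a = j) → ∀ c, v i c = v j c → i = j := by
    intro i j hi hj c hij
    have h1 := hv1 i j hi hj c c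
    have h2 := hv1 j i hj hi c c
    rcases lt_trichotomy i j with h3 | h3 | h3
    · have := h1.2 (Or.inl h3)
      rw [hij] at this
      exact absurd this (lt_irrefl _)
    · exact h3
    · have := h2.2 (Or.inl h3)
      rw [hij] at this
      exact absurd this (lt_irrefl _)
  -- the columns
  have hcol : ∀ c, relP 𝔸 M s (fun a => v (t a) c) := by
    intro c
    cases s with
    | none => trivial
    | some l₀ =>
      refine hS.split l₀ _ _ (hY1 c) ⟨?_, ?_⟩
      · intro a b hab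
        have h1 := hvne _ _ ⟨a, rfl⟩ ⟨b, rfl⟩ c hab
        exact congrArg (Y c) h1
      · intro l a
        have h1 := hv2 l (fun i => t (a i)) (fun _ => c) fun i => ⟨a i, rfl⟩
        rw [h1]
        constructor
        · rintro ⟨d, hd, h2⟩
          have h3 := (hag l _ (fun i => ⟨a i, rfl⟩) d c hd).1 h2
          exact ⟨h3.1, fun i j hij => congrArg (fun q => v q c) (h3.2 i j hij)⟩
        · rintro ⟨h2, h3⟩
          refine ⟨c, fun _ => rfl, h2, fun i j hij => ?_⟩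
          exact hvne _ _ ⟨a i, rfl⟩ ⟨a j, rfl⟩ c (h3 i j hij)
  obtain ⟨x, hx1, hx2, hx3⟩ := hH.rel s (fun a => v (t a)) hcol
  let y : Fin k → V := fun i => if hi : ∃ a, t a = i then x hi.choose else Classical.arbitrary V
  have hy : ∀ a, y (t a) = x a := by
    intro a
    have hi : ∃ b, t b = t a := ⟨a, rfl⟩
    have h1 : y (t a) = x hi.choose := dif_pos hi
    rw [h1]
    exact hx2 _ _ (congrArg v hi.choose_spec)
  refine ⟨y, ?_, ?_⟩
  · have h1 : (fun a => y (t a)) = x := funext hy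
    change relP 𝔸 M s (fun a => y (t a))
    rw [h1]
    exact hx1
  · intro e he
    have he' : ∀ i ∈ e.1, ∃ a, t a = i := he
    have hsh : Sh 𝔹 κ e.1 (fun c => p c e) v := by
      refine ⟨fun i hi j hj c d => hv1 i j (he' i hi) (he' j hj) c d, fun l z c hz => ?_⟩
      rw [hv2 l z c fun i => he' _ (hz i)]
      constructor
      · rintro ⟨d, h1, h2⟩
        refine ⟨d, h1, ?_⟩
        change p d e l z
        rw [hp' d e he']
        exact ⟨hz, h2⟩
      · rintro ⟨d, h1, h2⟩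
        change p d e l z at h2
        rw [hp' d e he'] at h2
        exact ⟨d, h1, h2.2⟩
    change fmK 𝔹 H κ e (fun c => p c e) = res e.1 (spl 𝔹 y)
    rw [fmK_eq hT hsh]
    funext l z
    apply propext
    have key : (∀ i, z i ∈ e.1) → (pull H v l z ↔ spl 𝔹 y l z) := by
      intro hz
      choose a ha using fun i => he' _ (hz i)
      have h1 := hx3 l a
      have h2 : (fun i => v (t (a i))) = fun i => v (z i) := funext fun i => by rw [ha]
      have h3 : (fun i => x (a i)) = fun i => y (z i) := funext fun i => by rw [← ha, hy]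
      rw [h2, h3] at h1
      refine h1.trans (and_congr_right fun _ => ?_)
      constructor
      · intro h4 i j hij
        have h5 := h4 i j (by rw [← hy, ← hy, ha, ha]; exact hij)
        rw [ha, ha] at h5
        exact hvne _ _ (he' _ (hz i)) (he' _ (hz j)) 0 (congrFun h5 0)
      · intro h4 i j hij
        have h5 := h4 i j (by rw [← ha, ← ha, hy, hy]; exact hij)
        rw [ha, ha, h5]
    constructor
    · rintro ⟨hz, h1⟩
      exact ⟨hz, (key hz).1 h1⟩
    · rintro ⟨hz, h1⟩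
      exact ⟨hz, (key hz).2 h1⟩

end val

end Pool.Agent.H53.GR
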