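import Pool.Agent.H53.GR.Defs

/-!
# Targets
-/

set_option autoImplicit false
set_option linter.unusedVariables false

namespace Pool.Agent.H53.GR

open Pool.Agent.H68.BP Pool.Agent.H58.SF Pool.Agent.H53.GC Pool.Agent.H53.NR Pool.Agent.H58.GR
open Classical

/-! ### The map on the sixth power -/

/-- the map on the sixth power -/
def T_POW : Prop :=
  ∀ (σ τ : Sig) (V : Type) (𝔸 : Str σ V) (𝔹 : Str τ V) (M : ℕ), Countable V → Nonempty V →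
    1 ≤ M → (∀ l, 1 ≤ τ.ar l ∧ τ.ar l ≤ M) → Oligo 𝔸 → ¬ PPConstructsK3 𝔸 → ∃ H, GMap 𝔸 𝔹 M H

/-- canonization -/
def T_CAN : Prop :=
  ∀ (σ τ : Sig) (V : Type) [LinearOrder V] (𝔸 : Str σ V) (𝔹 : Str τ V) (M : ℕ),
    (∀ l, 1 ≤ τ.ar l ∧ τ.ar l ≤ M) → RamFin 𝔹 → ClosedUnderSplitting 𝔸 𝔹 →
    ∀ H, GMap 𝔸 𝔹 M H → ∃ H', GMap 𝔸 𝔹 M H' ∧ TInv 𝔹 H'

/-- universality for arbitrary finite linear orders -/
def T_UNI : Prop :=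
  ∀ (τ : Sig) (V : Type) [LinearOrder V] (𝔹 : Str τ V) (M : ℕ), Univ 𝔹 M →
    ∀ (W : Type) [LinearOrder W] [Finite W] (𝕏 : Str τ W), OK 𝔹 M 𝕏 →
      ∃ f : W → V, StrictMono f ∧ IsEmb 𝕏 𝔹 f

/-- validity of the families given by shapes -/
def T_VAL : Prop :=
  ∀ (σ τ : Sig) (V : Type) [LinearOrder V] (𝔸 : Str σ V) (𝔹 : Str τ V) (M : ℕ)
    (H : Str τ (Fin 6 → V)), Setp 𝔸 𝔹 M → GMap 𝔸 𝔹 M H → TInv 𝔹 H →
    ∀ (k : ℕ) (κ : Fin k → Fin 6 → Fin 6) (l : La σ M k) (p : Fin 6 → So M k → Str τ (Fin k)),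
      (∀ c, RK 𝔸 𝔹 M k l (p c)) → Cs (fun i => ∃ a, l.2 a = i) κ p →
      RK 𝔸 𝔹 M k l (fun e => fmK 𝔹 H κ e (fun c => p c e))

/-- independence of the order `r` -/
def T_EX : Prop :=
  ∀ (σ τ : Sig) (V : Type) [LinearOrder V] (𝔸 : Str σ V) (𝔹 : Str τ V) (M : ℕ)
    (H : Str τ (Fin 6 → V)), GMap 𝔸 𝔹 M H → TInv 𝔹 H →
    ∀ (k : ℕ) (lb : Fin k → Fin 3) (r : Fin 3) (e : So M k), (∀ i ∈ e.1, lb i ≠ 0) →
      ∀ a b : Str τ (Fin k), fmK 𝔹 H (kap lb r) e (pat r a b) = fmK 𝔹 H (kap lb 0) e (pat 0 a b)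

/-- consistency of the labels -/
def T_CNS : Prop :=
  ∀ (τ : Sig) (M k : ℕ) (J : Fin k → Prop) (lb : Fin k → Fin 3) (r : Fin 3) (j : ℕ)
    (p : Fin 6 → So M k → Str τ (Fin k)),
    (Finset.univ.filter (fun i => lb i = 2)).card < j →
    (∀ e : So M k, (∀ i ∈ e.1, J i) → e.1.card < j → ∀ c d, p c e = p d e) →
    ((∃ a b : So M k → Str τ (Fin k), ∀ c, p c = pat r a b c) ∨ ∀ i, lb i ≠ 1) →
    Cs J (kap lb r) p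

/-- mixed families -/
def T_MIX : Prop :=
  ∀ (σ τ : Sig) (V : Type) [LinearOrder V] (𝔸 : Str σ V) (𝔹 : Str τ V) (M : ℕ)
    (H : Str τ (Fin 6 → V)), Setp 𝔸 𝔹 M → GMap 𝔸 𝔹 M H → TInv 𝔹 H →
    ∀ k j : ℕ, MixJ (pS 𝔸 𝔹 M k) j

/-- the system of patterns -/
def T_GOO : Prop :=
  ∀ (σ τ : Sig) (V : Type) (𝔸 : Str σ V) (𝔹 : Str τ V) (M k : ℕ), Good (pS 𝔸 𝔹 M k)

/-- no selection for pattern systems with mixed families (part of helper58) -/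
def T_NOSEL : Prop :=
  ∀ (𝓔 X 𝓛 : Type) [Finite 𝓔] [Finite X] (P : PS 𝓔 X 𝓛), Good P → (∀ j, MixJ P j) →
    ¬ ∃ Z, Selects P.R Z

/-- the limit of Olšák families -/
def T_LIM : Prop :=
  ∀ (σ τ : Sig) (V : Type) (𝔸 : Str σ V) (𝔹 : Str τ V) (M : ℕ), 1 ≤ M → Nonempty V →
    (∀ k : ℕ, ∃ F : So M k → (Fin 6 → Str τ (Fin k)) → Str τ (Fin k),
      Fam (RK 𝔸 𝔹 M k) (Fin 6) F ∧ ∀ e x y r, F e (pat r x y) = F e (pat 0 x y)) →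
    HasOlsak (tmpl 𝔸 𝔹 M) (tmpl 𝔸 𝔹 M)

/-! ### The reduction -/

/-- the structure with `M` additional elements -/
def pls {σ : Sig} {n : ℕ} (𝕏 : Str σ (Fin n)) (M : ℕ) : Str σ (Fin (n + M)) :=
  fun l x => ∃ z : Fin (σ.ar l) → Fin n, 𝕏 l z ∧ x = fun i => Fin.castAdd M (z i)

/-- correctness of the reduction -/
def T_RE1 : Prop :=
  ∀ (σ τ : Sig) (V : Type) [LinearOrder V] (𝔸 : Str σ V) (𝔹 : Str τ V) (M : ℕ), Setp 𝔸 𝔹 M →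
    ∀ (n : ℕ) (𝕏 : Str σ (Fin n)), (∃ f, IsHom 𝕏 𝔸 f) ↔
      ∃ q : (j : Fin M) → (Fin (j + 1) → Fin (n + M)) → Dm τ M,
        ∀ (s : Option (Fin σ.m)) (y : Fin (arP σ M s) → Fin (n + M))
          (t : Fin (arP σ M s) → Fin (arP σ M s)), relP (pls 𝕏 M) M s y →
          (∀ a b, y a ≤ y b ↔ t a ≤ t b) →
          ∃ x : Fin (arP σ M s) → V, relP 𝔸 M s x ∧ (∀ a b, t a = t b → x a = x b) ∧
            ∀ (j : Fin M) (α : Fin (j + 1) → Fin (arP σ M s)), StrictMono (fun i => t (α i)) →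
              q j (fun i => y (α i)) = ⟨j, spl 𝔹 (fun i => x (α i))⟩

/-- the reduction -/
def T_RED : Prop :=
  ∀ (σ τ : Sig) (V : Type) [LinearOrder V] (𝔸 : Str σ V) (𝔹 : Str τ V) (M : ℕ), Setp 𝔸 𝔹 M →
    N793a5b8e.ManyOneReducible (CSP 𝔸) (CSP (tmpl 𝔸 𝔹 M))

/-! ### The Ramsey property -/

section systems

variable {τ : Sig} {V Q P P' : Type}

/-- `φ` is an embedding of the system `(P, π, 𝕏)` into the system `(P', π', 𝕏')`. -/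
structure SEmb (π : P → Q) (𝕏 : Str τ P) (π' : P' → Q) (𝕏' : Str τ P') (φ : P → P') : Prop where
  inj : Function.Injective φ
  part : ∀ x, π' (φ x) = π x
  str : pull 𝕏' φ = 𝕏

/-- `e` is a copy of `𝔸` in the parts `α`. -/
structure SCopy (π : P → Q) (𝕏 : Str τ P) {a : ℕ} (α : Fin a → Q) (𝔸 : Str τ (Fin a))
    (e : Fin a → P) : Prop where
  part : ∀ i, π (e i) = α i
  str : pull 𝕏 e = 𝔸

/-- `f` is an increasing copy of `𝔸` in `𝕏`. -/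
def OCopy {a b : ℕ} (𝔸 : Str τ (Fin a)) (𝕏 : Str τ (Fin b)) (f : Fin a → Fin b) : Prop :=
  StrictMono f ∧ pull 𝕏 f = 𝔸

/-- The system `(P, π, 𝕏)` over `(Q, 𝕐)`: the tuples in relations have their different elements in
different parts, `π` is an embedding on irreducible substructures, and the irreducible
substructures with at most `M` elements embed into `𝔹`. -/
structure SOK (𝔹 : Str τ V) (M : ℕ) (𝕐 : Str τ Q) (π : P → Q) (𝕏 : Str τ P) : Prop where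
  trans : ∀ (l : Fin τ.m) (z : Fin (τ.ar l) → P), 𝕏 l z → ∀ i j, π (z i) = π (z j) → z i = z j
  hemb : ∀ (m : ℕ) (s : Fin m → P), Function.Injective s → Irreducible (pull 𝕏 s) →
    pull 𝕏 s = pull 𝕐 (fun i => π (s i))
  real : OK 𝔹 M 𝕏

end systems

/-- one step of the partite construction -/
def T_STP : Prop :=
  ∀ (τ : Sig) (V Q P κ : Type) [LinearOrder Q] [Finite P] [Finite κ] (𝔹 : Str τ V) (M : ℕ)
    (π : P → Q) (𝕏 : Str τ P) (a : ℕ) (α : Fin a → Q) (𝔸 : Str τ (Fin a)), (∀ l, 1 ≤ τ.ar l) →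
    StrictMono α →
    ∃ (P' : Type) (_ : Finite P') (π' : P' → Q) (𝕏' : Str τ P'),
      (∀ χ : (Fin a → P') → κ, ∃ φ : P → P', SEmb π 𝕏 π' 𝕏' φ ∧
        ∀ e e' : Fin a → P, SCopy π 𝕏 α 𝔸 e → SCopy π 𝕏 α 𝔸 e' →
          χ (fun i => φ (e i)) = χ (fun i => φ (e' i))) ∧
      ∀ 𝕐 : Str τ Q, 𝔸 = pull 𝕐 α → OK 𝔹 M 𝔸 → SOK 𝔹 M 𝕐 π 𝕏 → SOK 𝔹 M 𝕐 π' 𝕏'

/-- iteration over finitely many tuples of parts -/
def T_ITR : Prop :=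
  ∀ (τ : Sig) (V Q κ : Type) [LinearOrder Q] [Finite κ] (𝔹 : Str τ V) (M : ℕ) (a : ℕ)
    (𝔸 : Str τ (Fin a)) (l : List (Fin a → Q)), (∀ l, 1 ≤ τ.ar l) → (∀ α ∈ l, StrictMono α) →
    ∀ (P : Type) [Finite P] (π : P → Q) (𝕏 : Str τ P),
    ∃ (P' : Type) (_ : Finite P') (π' : P' → Q) (𝕏' : Str τ P'),
      (∀ χ : (Fin a → P') → κ, ∃ φ : P → P', SEmb π 𝕏 π' 𝕏' φ ∧
        ∀ α ∈ l, ∀ e e' : Fin a → P, SCopy π 𝕏 α 𝔸 e → SCopy π 𝕏 α 𝔸 e' →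
          χ (fun i => φ (e i)) = χ (fun i => φ (e' i))) ∧
      ∀ 𝕐 : Str τ Q, (∀ α ∈ l, 𝔸 = pull 𝕐 α) → (l ≠ [] → OK 𝔹 M 𝔸) → SOK 𝔹 M 𝕐 π 𝕏 →
        SOK 𝔹 M 𝕐 π' 𝕏'

/-- The partite construction: `Q` arrows `𝕏` through the maps in `S`. -/
def T_PCT : Prop :=
  ∀ (τ : Sig) (V Q κ : Type) [LinearOrder Q] [Finite Q] [Finite κ] [Nonempty κ] (𝔹 : Str τ V)
    (M : ℕ) (a b : ℕ) (𝔸 : Str τ (Fin a)) (𝕏 : Str τ (Fin b)) (S : Set (Fin b → Q)),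
    (∀ l, 1 ≤ τ.ar l) → (∀ β ∈ S, StrictMono β) →
    (∀ χ : (Fin a → Q) → κ, ∃ β ∈ S, ∀ f f' : Fin a → Fin b, OCopy 𝔸 𝕏 f → OCopy 𝔸 𝕏 f' →
      χ (fun i => β (f i)) = χ (fun i => β (f' i))) →
    ∃ (P : Type) (_ : Finite P) (π : P → Q) (𝕌 : Str τ P),
      (∀ χ : (Fin a → P) → κ, ∃ φ : Fin b → P, StrictMono (fun i => π (φ i)) ∧
        pull 𝕌 φ = 𝕏 ∧ ∀ f f' : Fin a → Fin b, OCopy 𝔸 𝕏 f → OCopy 𝔸 𝕏 f' →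
          χ (fun i => φ (f i)) = χ (fun i => φ (f' i))) ∧
      ∀ 𝕐 : Str τ Q, (∀ β ∈ S, 𝕏 = pull 𝕐 β) → OK 𝔹 M 𝕏 → SOK 𝔹 M 𝕐 π 𝕌

/-- The theorem of Nešetřil and Rödl for one structure. -/
def T_NR2 : Prop :=
  ∀ (τ : Sig) (V κ : Type) [Finite κ] [Nonempty κ] (𝔹 : Str τ V) (M : ℕ) (a b : ℕ)
    (𝔸 : Str τ (Fin a)) (𝕏 : Str τ (Fin b)), (∀ l, 1 ≤ τ.ar l) → OK 𝔹 M 𝕏 →
    ∃ (n : ℕ) (𝕌 : Str τ (Fin n)), OK 𝔹 M 𝕌 ∧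
      ∀ χ : (Fin a → Fin n) → κ, ∃ φ : Fin b → Fin n, OCopy 𝕏 𝕌 φ ∧
        ∀ f f' : Fin a → Fin b, OCopy 𝔸 𝕏 f → OCopy 𝔸 𝕏 f' →
          χ (fun i => φ (f i)) = χ (fun i => φ (f' i))

/-- The theorem of Nešetřil and Rödl for a list of structures. -/
def T_NRI : Prop :=
  ∀ (τ : Sig) (V κ : Type) [Finite κ] [Nonempty κ] (𝔹 : Str τ V) (M : ℕ)
    (l : List (Σ a : ℕ, Str τ (Fin a))) (b : ℕ) (𝕏 : Str τ (Fin b)), (∀ l, 1 ≤ τ.ar l) →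
    OK 𝔹 M 𝕏 →
    ∃ (n : ℕ) (𝕌 : Str τ (Fin n)), OK 𝔹 M 𝕌 ∧
      ∀ χ : (a : ℕ) → (Fin a → Fin n) → κ, ∃ φ : Fin b → Fin n, OCopy 𝕏 𝕌 φ ∧
        ∀ p ∈ l, ∀ f f' : Fin p.1 → Fin b, OCopy p.2 𝕏 f → OCopy p.2 𝕏 f' →
          χ p.1 (fun i => φ (f i)) = χ p.1 (fun i => φ (f' i))

/-- the Ramsey property -/
def T_NR3 : Prop :=
  ∀ (τ : Sig) (V : Type) [LinearOrder V] (𝔹 : Str τ V) (M : ℕ), (∀ l, 1 ≤ τ.ar l) →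
    Univ 𝔹 M → RamFin 𝔹

end Pool.Agent.H53.GR
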