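import Pool.Agent.H53.NR.Targets
import Pool.Agent.H58.GR.PS

/-!
# Structures with free amalgamation in any finite relational language: definitions

A pattern with `k` vertices is a structure on `Fin k`. Its sorts are the nonempty subsets of
`Fin k` with at most `M` elements, and its value at the sort `e` is its restriction to `e`.
-/

set_option autoImplicit false
set_option linter.unusedVariables false

namespace Pool.Agent.H53.GR

open Pool.Agent.H68.BP Pool.Agent.H58.SF Pool.Agent.H53.GC Pool.Agent.H53.NR Pool.Agent.H58.GR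
open Classical

/-! ### Structures -/

section structures

variable {τ σ : Sig} {V W : Type}

/-- The structure on `W` which arises from `x : W → V` by splitting: each element of `V` is
replaced by as many copies as there are elements of `W` which are mapped to it, and each tuple in a
relation uses only one copy of each element. -/
def spl (𝔹 : Str τ V) (x : W → V) : Str τ W :=
  fun l z => 𝔹 l (fun i => x (z i)) ∧ ∀ i j, x (z i) = x (z j) → z i = z j

/-- the restriction of the structure `𝕏` to the set `e` -/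
def res (e : Finset W) (𝕏 : Str τ W) : Str τ W := fun l z => (∀ i, z i ∈ e) ∧ 𝕏 l z

/-- All irreducible substructures of `𝕏` with at most `M` elements embed into `𝔹`. -/
def OK (𝔹 : Str τ V) (M : ℕ) (𝕏 : Str τ W) : Prop :=
  ∀ (m : ℕ) (s : Fin m → W), m ≤ M → Function.Injective s → Irreducible (pull 𝕏 s) →
    Embeds (pull 𝕏 s) 𝔹

variable [LinearOrder V]

/-- A finite structure on a linear order has an increasing embedding into `(V, <, 𝔹)` if all its
irreducible substructures with at most `M` elements embed into `𝔹`. -/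
def Univ (𝔹 : Str τ V) (M : ℕ) : Prop :=
  ∀ (n : ℕ) (𝕏 : Str τ (Fin n)), OK 𝔹 M 𝕏 → ∃ f : Fin n → V, StrictMono f ∧ IsEmb 𝕏 𝔹 f

/-- The tuples `x` and `y` have the same quantifier-free type in `(V, <, 𝔹)`. -/
def SameTp (𝔹 : Str τ V) (x y : W → V) : Prop :=
  (∀ i j, x i < x j ↔ y i < y j) ∧ pull 𝔹 x = pull 𝔹 y

/-- The Ramsey property for finite subsets of `V`. -/
def RamFin (𝔹 : Str τ V) : Prop :=
  ∀ (n k : ℕ) (K : Finset V) (χ : (Fin n → V) → Fin k), ∃ g : V → V,
    (∀ x ∈ K, ∀ y ∈ K, x < y → g x < g y) ∧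
    (∀ (l : Fin τ.m) (z : Fin (τ.ar l) → V), (∀ i, z i ∈ K) → (𝔹 l (fun i => g (z i)) ↔ 𝔹 l z)) ∧
    ∀ x y : Fin n → V, (∀ i, x i ∈ K) → (∀ i, y i ∈ K) → SameTp 𝔹 x y →
      χ (fun i => g (x i)) = χ (fun i => g (y i))

/-- The hypotheses on the linear order `V`, the structure `𝔹` and the structure `𝔸`. -/
structure Setp (𝔸 : Str σ V) (𝔹 : Str τ V) (M : ℕ) : Prop where
  ne : Nonempty V
  pos : 1 ≤ M
  ar : ∀ l, 1 ≤ τ.ar l ∧ τ.ar l ≤ M
  univ : Univ 𝔹 M
  split : ClosedUnderSplitting 𝔸 𝔹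

end structures

/-! ### Patterns -/

section patterns

variable {τ σ : Sig} {V : Type}

/-- the sorts -/
abbrev So (M k : ℕ) : Type := {e : Finset (Fin k) // e.Nonempty ∧ e.card ≤ M}

/-- the labels of the relations -/
abbrev La (σ : Sig) (M k : ℕ) : Type := Σ s : Option (Fin σ.m), (Fin (arP σ M s) → Fin k)

/-- the scope of a relation -/
def ScK {M k : ℕ} (l : La σ M k) (e : So M k) : Prop := ∀ i ∈ e.1, ∃ a, l.2 a = i

/-- the relations on patterns with `k` vertices -/
def RK (𝔸 : Str σ V) (𝔹 : Str τ V) (M k : ℕ) (l : La σ M k) (p : So M k → Str τ (Fin k)) : Prop :=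
  ∃ y : Fin k → V, relP 𝔸 M l.1 (fun a => y (l.2 a)) ∧ ∀ e, ScK l e → p e = res e.1 (spl 𝔹 y)

theorem exists_enum {M k : ℕ} (e : So M k) : ∃ t : Fin M → Fin k, ∀ i, i ∈ e.1 ↔ ∃ a, t a = i := by
  obtain ⟨⟨i₀, hi₀⟩, hM⟩ := e.2
  refine ⟨fun a => if h : (a : ℕ) < e.1.card then e.1.orderEmbOfFin rfl ⟨a, h⟩ else i₀, ?_⟩
  intro i
  constructor
  · intro hi
    have h1 : i ∈ Set.range (e.1.orderEmbOfFin rfl) := by
      rw [Finset.range_orderEmbOfFin]
      exact hi
    obtain ⟨b, rfl⟩ := h1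
    refine ⟨⟨b, lt_of_lt_of_le b.2 hM⟩, ?_⟩
    simp only [dif_pos b.2]
  · rintro ⟨a, rfl⟩
    dsimp only
    split_ifs with h
    · exact Finset.orderEmbOfFin_mem _ _ _
    · exact hi₀

/-- The full relation on the set `e`. -/
noncomputable def tpK (σ : Sig) {M k : ℕ} (e : So M k) : La σ M k :=
  ⟨none, (exists_enum e).choose⟩

/-- the system of patterns with `k` vertices -/
noncomputable def pS (𝔸 : Str σ V) (𝔹 : Str τ V) (M k : ℕ) :
    PS (So M k) (Str τ (Fin k)) (La σ M k) where
  R := RK 𝔸 𝔹 M k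
  Sc := ScK
  sz := fun e => e.1.card
  le := fun a b => a.1 ⊆ b.1
  rd := fun a _ x => res a.1 x
  tp := tpK σ

/-- The structure `H` on the sixth power of `V` arises from a map of this power to `V` by splitting
(this map is given on finite sets only, up to types), it preserves the relations and satisfies the
identities of an Olšák function. -/
structure GMap (𝔸 : Str σ V) (𝔹 : Str τ V) (M : ℕ) (H : Str τ (Fin 6 → V)) : Prop where
  rel : ∀ (s : Option (Fin σ.m)) (v : Fin (arP σ M s) → Fin 6 → V),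
    (∀ c, relP 𝔸 M s (fun a => v a c)) →
    ∃ x : Fin (arP σ M s) → V, relP 𝔸 M s x ∧ (∀ a b, v a = v b → x a = x b) ∧
      ∀ (l : Fin τ.m) (z : Fin (τ.ar l) → Fin (arP σ M s)), H l (fun i => v (z i)) ↔
        (𝔹 l (fun i => x (z i)) ∧ ∀ i j, x (z i) = x (z j) → v (z i) = v (z j))
  exact : ∀ (r : Fin 3) (l : Fin τ.m) (x y : Fin (τ.ar l) → V),
    H l (fun i => pat r (x i) (y i)) ↔ H l (fun i => pat 0 (x i) (y i))

/-- `H` depends only on types. -/
def TInv [LinearOrder V] (𝔹 : Str τ V) (H : Str τ (Fin 6 → V)) : Prop :=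
  ∀ (l : Fin τ.m) (u u' : Fin (τ.ar l) → Fin 6 → V),
    SameTp 𝔹 (fun q : Fin (τ.ar l) × Fin 6 => u q.1 q.2) (fun q => u' q.1 q.2) → (H l u ↔ H l u')

/-- The blocks `v i` of six vertices, for `i ∈ e`, have the shapes `κ i`; the six structures
`w c` on `e` are glued along the equal vertices. -/
def Sh [LinearOrder V] (𝔹 : Str τ V) {k : ℕ} (κ : Fin k → Fin 6 → Fin 6) (e : Finset (Fin k))
    (w : Fin 6 → Str τ (Fin k)) (v : Fin k → Fin 6 → V) : Prop :=
  (∀ i ∈ e, ∀ j ∈ e, ∀ c d, v i c < v j d ↔ (i < j ∨ (i = j ∧ κ i c < κ j d))) ∧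
  ∀ (l : Fin τ.m) (z : Fin (τ.ar l) → Fin k) (c : Fin (τ.ar l) → Fin 6), (∀ i, z i ∈ e) →
    (𝔹 l (fun i => v (z i) (c i)) ↔ ∃ d : Fin 6, (∀ i, κ (z i) d = κ (z i) (c i)) ∧ w d l z)

/-- the family given by the shapes `κ` -/
noncomputable def fmK [LinearOrder V] (𝔹 : Str τ V) (H : Str τ (Fin 6 → V)) {M k : ℕ}
    (κ : Fin k → Fin 6 → Fin 6) : So M k → (Fin 6 → Str τ (Fin k)) → Str τ (Fin k) :=
  fun e w => if h : ∃ v, Sh 𝔹 κ e.1 w v then res e.1 (pull H h.choose) else fun _ _ => False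

/-- The shapes given by the labels `lb`: `0` for generic, `1` for special, `2` for diagonal. -/
def kap {k : ℕ} (lb : Fin k → Fin 3) (r : Fin 3) : Fin k → Fin 6 → Fin 6 :=
  fun i => if lb i = 0 then id else if lb i = 1 then kS r else fun _ => 0

/-- The shapes `κ i`, `i ∈ J`, are consistent with the six patterns `p c`. -/
structure Cs {M k : ℕ} (J : Fin k → Prop) (κ : Fin k → Fin 6 → Fin 6)
    (p : Fin 6 → So M k → Str τ (Fin k)) : Prop where
  agree : ∀ e : So M k, (∀ i ∈ e.1, J i) → ∀ c d, (∀ i ∈ e.1, κ i c = κ i d) → p c e = p d e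
  star : ∀ (m : ℕ) (q : Fin m → Fin k) (s : Fin m → Fin 6), 2 ≤ m → Function.Injective q →
    (∀ a, J (q a)) → (∀ a b, a ≠ b → ∃ c, κ (q a) c = s a ∧ κ (q b) c = s b) →
    ∃ c, ∀ a, κ (q a) c = s a

end patterns

/-! ### The finite template -/

section template

variable {τ σ : Sig} {V : Type}

/-- The domain of the template: the structures on sets with at most `M` elements. -/
abbrev Dm (τ : Sig) (M : ℕ) : Type := Σ j : Fin M, Str τ (Fin (j + 1))

/-- The positions of a relation of arity `m` of the template -/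
abbrev Ps (M m : ℕ) : Type := Σ j : Fin M, (Fin (j + 1) → Fin m)

/-- The finite template: for each relation of `𝔸` of arity `m` (and for the full relation of arity
`M`) and each `t : Fin m → Fin m` it has a relation, which consists of the patterns of the split
types of those tuples of entries whose images under `t` are increasing. -/
noncomputable def tmpl (𝔸 : Str σ V) (𝔹 : Str τ V) (M : ℕ) :
    Str (sigOf (Sym σ M) (fun s => Ps M (arP σ M s.1))) (Dm τ M) :=
  strOn fun s q => ∃ x : Fin (arP σ M s.1) → V, relP 𝔸 M s.1 x ∧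
    (∀ a b, s.2 a = s.2 b → x a = x b) ∧
    ∀ (j : Fin M) (α : Fin (j + 1) → Fin (arP σ M s.1)), StrictMono (fun i => s.2 (α i)) →
      q ⟨j, α⟩ = ⟨j, spl 𝔹 (fun i => x (α i))⟩

end template

end Pool.Agent.H53.GR
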